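import Pool.Agent.Work.MP_b29d7f_ns.Interface3

/-! Block MERK of MP_b29d7f_ns: Mertens' theorem for rings of integers. -/

set_option autoImplicit false

open Finset NumberField

namespace Pool.NS

open Pool.Agent.Work.MP_b29d7f_nt.Ded

namespace MERK_

variable {K : Type} [Field K] [NumberField K]

lemma nrm_eq_prod (x : 𝓞 K) : (nrm x : ℝ) = ∏ w : InfinitePlace K, w (x : K) ^ w.mult := by
  rw [InfinitePlace.prod_eq_abs_norm]
  have h1 : nrm x = (Algebra.norm ℤ x).natAbs := by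
    rw [← Ideal.absNorm_span_singleton, Ideal.absNorm_apply, Submodule.cardQuot_apply]
    rfl
  rw [h1]
  have h2 : ((Algebra.norm ℤ x : ℤ) : ℚ) = Algebra.norm ℚ (x : K) := Algebra.coe_norm_int x
  rw [← h2]
  push_cast
  rw [Nat.cast_natAbs]
  push_cast
  rfl

lemma nrm_le_of_mem {x : 𝓞 K} {m : ℝ} (hx : x ∈ bx (⊤ : Ideal (𝓞 K)) m) :
    (nrm x : ℝ) ≤ m ^ Module.finrank ℚ K := by
  rw [nrm_eq_prod]
  calc ∏ w : InfinitePlace K, w (x : K) ^ w.mult ≤ ∏ w : InfinitePlace K, m ^ w.mult := by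
        apply Finset.prod_le_prod
        · intro w _
          exact pow_nonneg (w.1.nonneg _) _
        · intro w _
          exact pow_le_pow_left₀ (w.1.nonneg _) (hx.2 w) _
    _ = m ^ Module.finrank ℚ K := by
        rw [Finset.prod_pow_eq_pow_sum, InfinitePlace.sum_mult_eq]

end MERK_

open MERK_ in
theorem stmt_MERK (hFACT : Stmt_FACT) (hCHK : Stmt_CHK) (hMK1 : Stmt_MK1) (hMK2 : Stmt_MK2)
    (hMK5 : Stmt_MK5) : Stmt_MERK := by
  classical
  intro K _ _
  obtain ⟨Cψ, hψ⟩ := hCHK K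
  obtain ⟨V, C, hV, hC, hbx⟩ := hMK1 K
  obtain ⟨C₂, hC₂⟩ := hMK2 K
  set d := Module.finrank ℚ K with hd
  have hd1 : 1 ≤ d := Module.finrank_pos
  have hdR : (1 : ℝ) ≤ d := by exact_mod_cast hd1
  obtain ⟨C₅, hC₅⟩ := hMK5 (𝓞 K) Cψ hψ d hd1
  obtain ⟨hL0, -, -, hfact⟩ := hFACT (𝓞 K)
  have hψ0 : 0 ≤ Cψ := by
    have h1 := hψ 1
    have h2 : 0 ≤ ∑ I ∈ ids (𝓞 K) 1, Lam I := Finset.sum_nonneg fun I _ => hL0 I
    push_cast at h1
    linarith
  have hC50 : 0 ≤ C₅ := by
    have h1 := hC₅ 1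
    have h2 : 0 ≤ ∑ I ∈ ids (𝓞 K) 1, Lam I * (((1 : ℕ) : ℝ) / Nm I) ^ (1 - 1 / (d : ℝ)) :=
      Finset.sum_nonneg fun I _ => mul_nonneg (hL0 I) (Real.rpow_nonneg (by positivity) _)
    push_cast at h1 h2
    linarith
  set D : ℝ := ((1 + C) * Cψ + C * C₅ + |C₂| + C * (1 + d)) / V with hD
  refine ⟨max Cψ D, ⟨?_, ?_⟩⟩
  · intro X
    refine le_trans (hψ X) ?_
    exact mul_le_mul_of_nonneg_right (le_max_left _ _) (Nat.cast_nonneg _)
  · intro X hX
    refine le_trans ?_ (le_max_right _ _)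
    have hX1 : (1 : ℝ) ≤ X := by exact_mod_cast hX
    have hX0 : (0 : ℝ) < X := by linarith
    set m : ℝ := (X : ℝ) ^ (1 / (d : ℝ)) with hm
    have hm1 : 1 ≤ m := Real.one_le_rpow hX1 (by positivity)
    have hm0 : 0 < m := by linarith
    have hmd : m ^ d = X := by
      rw [hm, one_div]
      exact Real.rpow_inv_natCast_pow hX0.le (by omega)
    have htop : (⊤ : Ideal (𝓞 K)) ≠ ⊥ := top_ne_bot
    have hfin := (hbx ⊤ htop m hm0).1
    set B : Finset (𝓞 K) := hfin.toFinset with hB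
    have hBm : ∀ x, x ∈ B ↔ x ∈ bx (⊤ : Ideal (𝓞 K)) m := fun x => Set.Finite.mem_toFinset _
    have h2 := hC₂ m hm1 B (by rw [hB, Set.Finite.coe_toFinset])
    rw [hmd] at h2
    -- number of elements of ideals
    have hcnt : ∀ I ∈ ids (𝓞 K) X, (((B.erase 0).filter fun x => x ∈ I).card : ℝ)
        = (bx I m).ncard - 1 := by
      intro I _
      have h3 : (bx I m) = ((B.filter fun x => x ∈ I : Finset (𝓞 K)) : Set (𝓞 K)) := by
        ext x
        rw [Finset.mem_coe, Finset.mem_filter, hBm]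
        constructor
        · rintro ⟨h4, h5⟩
          exact ⟨⟨Submodule.mem_top, h5⟩, h4⟩
        · rintro ⟨⟨_, h5⟩, h4⟩
          exact ⟨h4, h5⟩
      rw [h3, Set.ncard_coe_finset, Finset.filter_erase]
      have h6 : (0 : 𝓞 K) ∈ B.filter fun x => x ∈ I := by
        rw [Finset.mem_filter, hBm]
        refine ⟨⟨Submodule.mem_top, fun w => ?_⟩, I.zero_mem⟩
        simp only [map_zero]
        exact hm0.le
      have h7 := Finset.card_erase_add_one h6
      have h8 : ((((B.filter fun x => x ∈ I).erase 0).card : ℕ) : ℝ) + 1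
          = ((B.filter fun x => x ∈ I).card : ℝ) := by exact_mod_cast h7
      linarith
    have hsum : ∑ x ∈ B.erase 0, Real.log (nrm x)
        = ∑ I ∈ ids (𝓞 K) X, Lam I * ((bx I m).ncard - 1) := by
      have h3 : ∀ x ∈ B.erase 0, Real.log (nrm x)
          = ∑ I ∈ ids (𝓞 K) X, if x ∈ I then Lam I else 0 := by
        intro x hx
        rw [Finset.mem_erase, hBm] at hx
        rw [hfact x X hx.1, Finset.sum_filter]
        have := nrm_le_of_mem hx.2
        rw [← hd, hmd] at this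
        exact_mod_cast this
      rw [Finset.sum_congr rfl h3, Finset.sum_comm]
      apply Finset.sum_congr rfl
      intro I hI
      rw [← Finset.sum_filter, Finset.sum_const, nsmul_eq_mul, hcnt I hI]
      ring
    have hIpos : ∀ I ∈ ids (𝓞 K) X, (0 : ℝ) < Nm I := by
      intro I hI
      exact_mod_cast Nm_pos (mem_ids.1 hI).1
    have herr : |∑ I ∈ ids (𝓞 K) X, Lam I * ((bx I m).ncard - 1)
        - V * X * ∑ I ∈ ids (𝓞 K) X, Lam I / (Nm I : ℝ)| ≤ ((1 + C) * Cψ + C * C₅) * X := by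
      have h3 : ∑ I ∈ ids (𝓞 K) X, Lam I * ((bx I m).ncard - 1)
          - V * X * ∑ I ∈ ids (𝓞 K) X, Lam I / (Nm I : ℝ)
          = ∑ I ∈ ids (𝓞 K) X, Lam I * (((bx I m).ncard : ℝ) - V * (X / Nm I) - 1) := by
        rw [Finset.mul_sum, ← Finset.sum_sub_distrib]
        apply Finset.sum_congr rfl
        intro I _
        ring
      rw [h3]
      have h4 : ∀ I ∈ ids (𝓞 K) X, |Lam I * (((bx I m).ncard : ℝ) - V * (X / Nm I) - 1)| ≤
          (1 + C) * Lam I + C * (Lam I * ((X : ℝ) / Nm I) ^ (1 - 1 / (d : ℝ))) := by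
        intro I hI
        rw [abs_mul, abs_of_nonneg (hL0 I)]
        have h5 := (hbx I (mem_ids.1 hI).1 m hm0).2
        rw [hmd] at h5
        have h6 : |((bx I m).ncard : ℝ) - V * (X / Nm I) - 1| ≤
            1 + C * (1 + ((X : ℝ) / Nm I) ^ (1 - 1 / (d : ℝ))) := by
          rw [abs_le] at h5 ⊢
          constructor <;> linarith [h5.1, h5.2]
        have h7 := mul_le_mul_of_nonneg_left h6 (hL0 I)
        linarith
      refine le_trans (Finset.abs_sum_le_sum_abs _ _) (le_trans (Finset.sum_le_sum h4) ?_)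
      rw [Finset.sum_add_distrib, ← Finset.mul_sum, ← Finset.mul_sum]
      have h5 := mul_le_mul_of_nonneg_left (hψ X) (show (0 : ℝ) ≤ 1 + C by linarith)
      have h6 := mul_le_mul_of_nonneg_left (hC₅ X) hC
      linarith
    have hlog0 : 0 ≤ Real.log X := Real.log_nonneg hX1
    have hcard : |(B.card : ℝ) * Real.log X - V * X * Real.log X| ≤ C * (1 + d) * X := by
      have h3 := (hbx ⊤ htop m hm0).2
      rw [hmd, Nm_top, Nat.cast_one, div_one] at h3
      have h4 : ((bx (⊤ : Ideal (𝓞 K)) m).ncard : ℝ) = B.card := by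
        rw [Set.ncard_eq_toFinset_card _ hfin]
      rw [h4] at h3
      have h5 : (B.card : ℝ) * Real.log X - V * X * Real.log X
          = ((B.card : ℝ) - V * X) * Real.log X := by ring
      rw [h5, abs_mul, abs_of_nonneg hlog0]
      have h6 : Real.log X ≤ X := by
        have := Real.log_le_sub_one_of_pos hX0
        linarith
      have h7 : (X : ℝ) ^ (1 - 1 / (d : ℝ)) * Real.log X ≤ d * X := by
        have h8 : Real.log X = d * Real.log m := by
          rw [hm, Real.log_rpow hX0]; field_simp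
        have h9 : Real.log m ≤ m := by
          have := Real.log_le_sub_one_of_pos hm0
          linarith
        have h10 : (X : ℝ) ^ (1 - 1 / (d : ℝ)) * m = X := by
          rw [hm, ← Real.rpow_add hX0]
          simp
        have h11 : 0 ≤ (X : ℝ) ^ (1 - 1 / (d : ℝ)) := Real.rpow_nonneg hX0.le _
        rw [h8]
        calc (X : ℝ) ^ (1 - 1 / (d : ℝ)) * (d * Real.log m)
            = d * ((X : ℝ) ^ (1 - 1 / (d : ℝ)) * Real.log m) := by ring
          _ ≤ d * ((X : ℝ) ^ (1 - 1 / (d : ℝ)) * m) := by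
              apply mul_le_mul_of_nonneg_left _ (by linarith)
              exact mul_le_mul_of_nonneg_left h9 h11
          _ = d * X := by rw [h10]
      calc |(B.card : ℝ) - V * X| * Real.log X
          ≤ (C * (1 + (X : ℝ) ^ (1 - 1 / (d : ℝ)))) * Real.log X :=
            mul_le_mul_of_nonneg_right h3 hlog0
        _ = C * (Real.log X + (X : ℝ) ^ (1 - 1 / (d : ℝ)) * Real.log X) := by ring
        _ ≤ C * (X + d * X) := mul_le_mul_of_nonneg_left (by linarith) hC
        _ = C * (1 + d) * X := by ring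
    have hfinal : |V * X * (∑ I ∈ ids (𝓞 K) X, Lam I / (Nm I : ℝ) - Real.log X)| ≤
        ((1 + C) * Cψ + C * C₅ + |C₂| + C * (1 + d)) * X := by
      rw [hsum] at h2
      have h3 : C₂ * X ≤ |C₂| * X := mul_le_mul_of_nonneg_right (le_abs_self _) hX0.le
      rw [abs_le] at h2 herr hcard ⊢
      constructor <;> nlinarith [h2.1, h2.2, herr.1, herr.2, hcard.1, hcard.2]
    rw [abs_mul, abs_of_pos (by positivity : 0 < V * (X : ℝ))] at hfinal
    rw [hD, le_div_iff₀ hV]
    have h3 : |∑ I ∈ ids (𝓞 K) X, Lam I / (Nm I : ℝ) - Real.log X| * V * X ≤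
        ((1 + C) * Cψ + C * C₅ + |C₂| + C * (1 + d)) * X := by
      linarith
    exact le_of_mul_le_mul_right h3 hX0

end Pool.NS
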