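import Pool.Agent.Work.MP_b29d7f_ns.Interface4
import Pool.Agent.Work.MP_b29d7f_ns_helper12.VAL

/-! Block LIFT of MP_b29d7f_ns: the statement RES1 in all universes. -/

set_option autoImplicit false

open Finset NumberField IsDedekindDomain

namespace Pool.NS

open Pool.Agent.Work.MP_b29d7f_nt.Ded

universe u w

namespace LIFT_

section pull

variable {K : Type u} {L : Type w} [Field K] [NumberField K] [Field L] [NumberField L]

/-- the prime of `𝓞 K` corresponding to a prime of `𝓞 L` -/
noncomputable def pull (e : K ≃+* L) (v : HeightOneSpectrum (𝓞 L)) : HeightOneSpectrum (𝓞 K) where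
  asIdeal := v.asIdeal.comap (RingOfIntegers.mapRingEquiv e)
  isPrime := Ideal.IsPrime.comap _ (hK := v.isPrime)
  ne_bot := by
    intro h
    apply v.ne_bot
    rw [eq_bot_iff]
    intro x hx
    have h1 : (RingOfIntegers.mapRingEquiv e).symm x ∈
        v.asIdeal.comap (RingOfIntegers.mapRingEquiv e) := by
      rw [Ideal.mem_comap]
      simpa using hx
    rw [h, Ideal.mem_bot] at h1
    rw [Ideal.mem_bot]
    simpa using congrArg (RingOfIntegers.mapRingEquiv e) h1

lemma mem_pull (e : K ≃+* L) (v : HeightOneSpectrum (𝓞 L)) (x : 𝓞 K) (n : ℕ) :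
    x ∈ (pull e v).asIdeal ^ n ↔ RingOfIntegers.mapRingEquiv e x ∈ v.asIdeal ^ n := by
  have h1 : (pull e v).asIdeal = v.asIdeal.map (RingOfIntegers.mapRingEquiv e).symm := by
    show v.asIdeal.comap (RingOfIntegers.mapRingEquiv e) = _
    exact (Ideal.map_symm (RingOfIntegers.mapRingEquiv e)).symm
  rw [h1, ← Ideal.map_pow, Ideal.map_symm, Ideal.mem_comap]

lemma pull_intValuation (e : K ≃+* L) (v : HeightOneSpectrum (𝓞 L)) (x : 𝓞 K) :
    (pull e v).intValuation x = v.intValuation (RingOfIntegers.mapRingEquiv e x) := by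
  by_cases hx : x = 0
  · rw [hx, map_zero, map_zero, map_zero]
  have hx' : RingOfIntegers.mapRingEquiv e x ≠ 0 := by
    intro h
    apply hx
    have := congrArg (RingOfIntegers.mapRingEquiv e).symm h
    simpa using this
  apply le_antisymm
  · have h1 := v.intValuation_if_neg hx'
    rw [h1, HeightOneSpectrum.intValuation_le_pow_iff_mem, mem_pull,
      ← HeightOneSpectrum.intValuation_le_pow_iff_mem, h1]
  · have h1 := (pull e v).intValuation_if_neg hx
    rw [h1, HeightOneSpectrum.intValuation_le_pow_iff_mem, ← mem_pull,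
      ← HeightOneSpectrum.intValuation_le_pow_iff_mem, h1]

lemma coe_map (e : K ≃+* L) (x : 𝓞 K) :
    ((RingOfIntegers.mapRingEquiv e x : 𝓞 L) : L) = e (x : K) := rfl

lemma pull_valuation (e : K ≃+* L) (v : HeightOneSpectrum (𝓞 L)) (x : K) :
    (pull e v).valuation K x = v.valuation L (e x) := by
  obtain ⟨r, s, hs, rfl⟩ := IsFractionRing.div_surjective (A := 𝓞 K) x
  have h1 : e (algebraMap (𝓞 K) K r / algebraMap (𝓞 K) K s)
      = algebraMap (𝓞 L) L (RingOfIntegers.mapRingEquiv e r) /
        algebraMap (𝓞 L) L (RingOfIntegers.mapRingEquiv e s) := by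
    rw [map_div₀]; rfl
  rw [h1, map_div₀, map_div₀, HeightOneSpectrum.valuation_of_algebraMap,
    HeightOneSpectrum.valuation_of_algebraMap, HeightOneSpectrum.valuation_of_algebraMap,
    HeightOneSpectrum.valuation_of_algebraMap, pull_intValuation, pull_intValuation]

lemma pull_injective (e : K ≃+* L) : Function.Injective (pull (K := K) e) := by
  intro v v' h
  apply HeightOneSpectrum.ext
  ext x
  have h1 := mem_pull e v ((RingOfIntegers.mapRingEquiv e).symm x) 1
  have h2 := mem_pull e v' ((RingOfIntegers.mapRingEquiv e).symm x) 1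
  rw [h] at h1
  rw [pow_one, pow_one, RingEquiv.apply_symm_apply] at h1 h2
  rw [← h1, ← h2]

lemma pull_surjective (e : K ≃+* L) : Function.Surjective (pull (K := K) e) := by
  intro w
  refine ⟨pull e.symm w, ?_⟩
  apply HeightOneSpectrum.ext
  ext x
  have h1 := mem_pull e (pull e.symm w) x 1
  have h2 := mem_pull e.symm w (RingOfIntegers.mapRingEquiv e x) 1
  rw [pow_one, pow_one] at h1 h2
  rw [h1, h2]
  have h3 : RingOfIntegers.mapRingEquiv e.symm (RingOfIntegers.mapRingEquiv e x) = x := by
    apply RingOfIntegers.ext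
    rw [coe_map, coe_map, RingEquiv.symm_apply_apply]
  rw [h3]

end pull

/-- a model of a number field in `Type` -/
lemma exists_model (K : Type u) [Field K] [NumberField K] :
    ∃ (L : Type) (_ : Field L) (_ : NumberField L), Nonempty (K ≃+* L) ∧
      Module.finrank ℚ L = Module.finrank ℚ K := by
  obtain ⟨φ⟩ : Nonempty (K →+* ℂ) := inferInstance
  let e : K ≃+* φ.fieldRange := φ.rangeRestrictFieldEquiv
  let e' : K ≃ₗ[ℚ] φ.fieldRange :=
    (SemilinearEquivClass.semilinearEquiv e : K ≃ₗ[ℚ] φ.fieldRange)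
  have hL : NumberField φ.fieldRange :=
    { to_charZero := inferInstance
      to_finiteDimensional := e'.finiteDimensional }
  exact ⟨φ.fieldRange, inferInstance, hL, ⟨e⟩, e'.symm.finrank_eq⟩

end LIFT_

open LIFT_ in
theorem stmt_RES1 (h : Stmt_VAL) : Stmt_RES1.{u} := by
  classical
  intro K _ _ hd E hE S hS hdense ⟨a, haS, ha⟩
  obtain ⟨L, _, _, ⟨e⟩, hfr⟩ := exists_model K
  refine h L (by rw [hfr]; exact hd) (pull (K := K) e ⁻¹' E)
    (hE.preimage (pull_injective e).injOn) (e '' S) ?_ ?_ ⟨fun k => e (a k), ?_, ?_⟩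
  · rintro v hv _ ⟨s, hs, rfl⟩
    rw [← pull_valuation]
    exact hS _ hv s hs
  · intro v hv x n
    obtain ⟨s, hs, hsx⟩ := hdense (pull e v) hv ((RingOfIntegers.mapRingEquiv e).symm x) n
    refine ⟨e s, ⟨s, hs, rfl⟩, ?_⟩
    rw [pull_valuation, map_sub] at hsx
    have h1 : e (algebraMap (𝓞 K) K ((RingOfIntegers.mapRingEquiv e).symm x))
        = algebraMap (𝓞 L) L x := by
      have h2 := coe_map e ((RingOfIntegers.mapRingEquiv e).symm x)
      rw [RingEquiv.apply_symm_apply] at h2
      exact h2.symm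
    rw [h1] at hsx
    exact hsx
  · intro k
    exact ⟨a k, haS k, rfl⟩
  · rintro v hv k _ ⟨s, hs, rfl⟩
    have h1 := ha (pull e v) hv k s hs
    rw [pull_valuation, pull_valuation] at h1
    have h2 : ∀ s : K, e (∏ i ∈ Finset.range k, (s - a i))
        = ∏ i ∈ Finset.range k, (e s - e (a i)) := by
      intro s
      rw [map_prod]
      exact Finset.prod_congr rfl fun i _ => map_sub e _ _
    rw [h2, h2] at h1
    exact h1

end Pool.NS
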