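import Pool.Agent.Work.MP_b29d7f_ns_helper17.RES1

/-! Block LIFT of MP_b29d7f_ns: the statements RES2 and RES3 in all universes. -/

set_option autoImplicit false

open NumberField IsDedekindDomain

namespace Pool.NS

open Pool.Agent.Work.MP_b29d7f_nt.Ded

universe u w

namespace LIFT_

section equiv

variable {A : Type u} {B : Type w} [CommRing A] [CommRing B]

/-- the multiplicative equivalence of ideals -/
def idealEquiv (f : A ≃+* B) : Ideal A ≃* Ideal B where
  toFun I := I.map f
  invFun J := J.map f.symm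
  left_inv I := by
    show (I.map f).map f.symm = I
    exact Ideal.map_of_equiv f
  right_inv J := by
    show (J.map f.symm).map f = J
    exact Ideal.map_of_equiv f.symm
  map_mul' I J := Ideal.map_mul _ I J

lemma val_equiv (f : A ≃+* B) (p : Ideal A) (x : A) : val (p.map f) (f x) = val p x := by
  unfold Agent.Work.MP_b29d7f_nt.Ded.val
  have h1 : Ideal.span {f x} = (Ideal.span {x}).map f := by
    rw [Ideal.map_span, Set.image_singleton]
  rw [h1]
  exact emultiplicity_map_eq (idealEquiv f)

lemma hso_equiv (f : A ≃+* B) {S : Set A} (h : HasSimultaneousOrdering S) :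
    HasSimultaneousOrdering (f '' S) := by
  obtain ⟨a, ha⟩ := h
  refine ⟨fun k => f (a k), fun p' hp' h0' => ?_⟩
  set p : Ideal A := p'.comap f with hp
  have hp1 : p.IsPrime := Ideal.IsPrime.comap _
  have hpm : p.map f = p' := Ideal.map_comap_of_surjective f f.surjective p'
  have h0 : p ≠ ⊥ := by
    intro h
    rw [h, Ideal.map_bot] at hpm
    exact h0' hpm.symm
  obtain ⟨h1, h2⟩ := ha p hp1 h0
  have h3 : ∀ (k : ℕ) (s : A), ∏ i ∈ Finset.range k, (f s - f (a i))
      = f (∏ i ∈ Finset.range k, (s - a i)) := by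
    intro k s
    rw [map_prod]
    exact Finset.prod_congr rfl fun i _ => (map_sub f _ _).symm
  refine ⟨fun k => ⟨a k, h1 k, rfl⟩, ?_⟩
  rintro k _ ⟨s, hs, rfl⟩
  rw [h3, h3, ← hpm, val_equiv, val_equiv]
  exact h2 k s hs

lemma dense_equiv (f : A ≃+* B) {S : Set A} {b : A} {I : Ideal A} (h : DenseInCoset S b I) :
    DenseInCoset (f '' S) (f b) (I.map f) := by
  obtain ⟨h1, h2⟩ := h
  refine ⟨?_, ?_⟩
  · rintro _ ⟨s, hs, rfl⟩
    rw [← map_sub]
    exact Ideal.mem_map_of_mem _ (h1 s hs)
  · intro p' hp' h0' x' hx' n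
    set p : Ideal A := p'.comap f with hp
    have hp1 : p.IsPrime := Ideal.IsPrime.comap _
    have hpm : p.map f = p' := Ideal.map_comap_of_surjective f f.surjective p'
    have h0 : p ≠ ⊥ := by
      intro h
      rw [h, Ideal.map_bot] at hpm
      exact h0' hpm.symm
    obtain ⟨x, rfl⟩ := f.surjective x'
    have hx : x - b ∈ I := by
      rw [← map_sub] at hx'
      obtain ⟨y, hy, hxy⟩ := (Ideal.mem_map_iff_of_surjective f f.surjective).1 hx'
      have := f.injective hxy
      rwa [← this]
    obtain ⟨s, hs, hsx⟩ := h2 p hp1 h0 x hx n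
    refine ⟨f s, ⟨s, hs, rfl⟩, ?_⟩
    rw [← map_sub, ← hpm, ← Ideal.map_pow]
    exact Ideal.mem_map_of_mem _ hsx

end equiv

section sint

variable {K : Type u} {L : Type w} [Field K] [NumberField K] [Field L] [NumberField L]

/-- isomorphism of the rings of `S`-integers -/
noncomputable def sintEquiv (e : K ≃+* L) (T : Set (HeightOneSpectrum (𝓞 K))) :
    T.integer K ≃+* (pull (K := K) e ⁻¹' T).integer L where
  toFun x := ⟨e x, fun v hv => by
    rw [← pull_valuation]
    exact x.2 (pull e v) hv⟩
  invFun y := ⟨e.symm y, fun v hv => by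
    obtain ⟨v', rfl⟩ := pull_surjective e v
    rw [pull_valuation, RingEquiv.apply_symm_apply]
    exact y.2 v' hv⟩
  left_inv x := by
    apply Subtype.ext
    exact e.symm_apply_apply _
  right_inv y := by
    apply Subtype.ext
    exact e.apply_symm_apply _
  map_mul' x y := by
    apply Subtype.ext
    exact map_mul e _ _
  map_add' x y := by
    apply Subtype.ext
    exact map_add e _ _

end sint

end LIFT_

open LIFT_ in
theorem stmt_RES3 (h : Stmt_FINAL) : Stmt_RES3.{u} := by
  intro K _ _ hd T hT S b I hI hdense hS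
  obtain ⟨L, _, _, ⟨e⟩, hfr⟩ := exists_model K
  have f := sintEquiv e T
  refine h L (by rw [hfr]; exact hd) (pull (K := K) e ⁻¹' T)
    (hT.preimage (pull_injective e).injOn) (f '' S) (f b) (I.map f) ?_
    (dense_equiv f hdense) (hso_equiv f hS)
  intro h0
  apply hI
  have h1 : (I.map f).comap f = I := Ideal.comap_map_of_bijective f f.bijective
  rw [← h1, h0]
  exact Ideal.comap_bot_of_injective f f.injective

open LIFT_ in
theorem stmt_RES2 (h1 : Stmt_FINAL) (h2 : Stmt_QORD) (h3 : Stmt_SINT) : Stmt_RES2.{u} := by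
  intro K _ _ T hT
  obtain ⟨L, _, _, ⟨e⟩, hfr⟩ := exists_model K
  have f := sintEquiv e T
  have hT' : (pull (K := K) e ⁻¹' T).Finite := hT.preimage (pull_injective e).injOn
  have huniv : HasSimultaneousOrdering (Set.univ : Set (T.integer K)) ↔
      HasSimultaneousOrdering (Set.univ : Set ((pull (K := K) e ⁻¹' T).integer L)) := by
    constructor
    · intro h
      have := hso_equiv f h
      rwa [Set.image_univ, f.surjective.range_eq] at this
    · intro h
      have := hso_equiv f.symm h
      rwa [Set.image_univ, f.symm.surjective.range_eq] at this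
  rw [huniv, ← hfr]
  constructor
  · intro h
    by_contra hne
    have hpos : 0 < Module.finrank ℚ L := Module.finrank_pos
    refine h1 L (by omega) _ hT' Set.univ 0 ⊤ top_ne_bot ⟨fun s _ => Submodule.mem_top, ?_⟩ h
    intro p _ _ x _ n
    exact ⟨x, Set.mem_univ _, by rw [sub_self]; exact Ideal.zero_mem _⟩
  · intro h
    obtain ⟨g, hg⟩ := h3 L _ hT'
    exact h2 L g _ h

end Pool.NS
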