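import Pool.Agent.Work.MP_b29d7f_ns.Interface3

/-! Block T1 of MP_b29d7f_ns: if all balls have small mass, the sum of the gaps is small. -/

set_option autoImplicit false

open Finset

namespace Pool.NS

namespace T1_

lemma mul_log_mono {s τ : ℝ} (hs : 0 < s) (hst : s ≤ τ) (hτ : τ ≤ Real.exp (-1)) :
    s * Real.log (1 / s) ≤ τ * Real.log (1 / τ) := by
  have hτ0 : 0 < τ := lt_of_lt_of_le hs hst
  have h1 : 1 ≤ Real.log (1 / τ) := by
    rw [one_div, Real.log_inv]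
    have := Real.log_le_log hτ0 hτ
    rw [Real.log_exp] at this
    linarith
  have h2 : Real.log (1 / s) = Real.log (1 / τ) + Real.log (τ / s) := by
    rw [← Real.log_mul (by positivity) (by positivity)]
    congr 1
    field_simp
  have h3 : Real.log (τ / s) ≤ τ / s - 1 := Real.log_le_sub_one_of_pos (by positivity)
  have h4 : s * Real.log (τ / s) ≤ τ - s := by
    have := mul_le_mul_of_nonneg_left h3 hs.le
    have h5 : s * (τ / s - 1) = τ - s := by field_simp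
    linarith
  rw [h2]
  nlinarith [mul_nonneg (sub_nonneg.2 hst) (sub_nonneg.2 h1)]

open scoped Classical in
lemma double_count {R : Type} (A : Finset R) (F : Finset (Finset R)) (w : R → ℝ) (K : ℝ)
    (hw : ∀ x ∈ A, 0 ≤ w x) (hF : ∀ B ∈ F, B ⊆ A)
    (hK : ∀ x ∈ A, ((F.filter fun B => x ∈ B).card : ℝ) ≤ K) :
    ∑ B ∈ F, ∑ x ∈ B, w x ≤ K * ∑ x ∈ A, w x := by
  have h1 : ∀ B ∈ F, ∑ x ∈ B, w x = ∑ x ∈ A, if x ∈ B then w x else 0 := by
    intro B hB
    rw [Finset.sum_ite_mem, Finset.inter_eq_right.2 (hF B hB)]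
  rw [Finset.sum_congr rfl h1, Finset.sum_comm, Finset.mul_sum]
  apply Finset.sum_le_sum
  intro x hx
  rw [← Finset.sum_filter, Finset.sum_const, nsmul_eq_mul]
  exact mul_le_mul_of_nonneg_right (hK x hx) (hw x hx)

open scoped Classical in
lemma pairs_sum {R : Type} (A : Finset R) (F : Finset (Finset R)) (γ : R → R → ℝ)
    (hF : ∀ B ∈ F, B ⊆ A) :
    ∑ B ∈ F, ∑ x ∈ B, ∑ y ∈ B, γ x y
      = ∑ x ∈ A, ∑ y ∈ A, ∑ B ∈ F, if x ∈ B ∧ y ∈ B then γ x y else 0 := by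
  have h1 : ∀ B ∈ F, ∑ x ∈ B, ∑ y ∈ B, γ x y
      = ∑ x ∈ A, ∑ y ∈ A, if x ∈ B ∧ y ∈ B then γ x y else 0 := by
    intro B hB
    have h2 : ∀ x, ∑ y ∈ A, (if x ∈ B ∧ y ∈ B then γ x y else 0)
        = if x ∈ B then ∑ y ∈ B, γ x y else 0 := by
      intro x
      by_cases hx : x ∈ B
      · simp only [hx, true_and, if_true]
        rw [Finset.sum_ite_mem, Finset.inter_eq_right.2 (hF B hB)]
      · simp [hx]
    rw [Finset.sum_congr rfl fun x _ => h2 x, Finset.sum_ite_mem,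
      Finset.inter_eq_right.2 (hF B hB)]
  rw [Finset.sum_congr rfl h1, Finset.sum_comm]
  apply Finset.sum_congr rfl
  intro x _
  rw [Finset.sum_comm]

open scoped Classical in
lemma cluster_sum {R : Type} (A : Finset R) (F : Finset (Finset R)) (γ : R → R → ℝ) (g : R → ℝ)
    (K τ C t₀ : ℝ) (hA : A.Nonempty) (hg : ∀ x ∈ A, 0 ≤ g x) (hC : 0 ≤ C) (ht : 0 ≤ t₀)
    (hτ0 : 0 < τ) (hτ : τ ≤ Real.exp (-1))
    (hF : ∀ B ∈ F, B ⊆ A ∧ B.Nonempty ∧ (B.card : ℝ) ≤ τ * A.card)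
    (hK : ∀ x ∈ A, ((F.filter fun B => x ∈ B).card : ℝ) ≤ K)
    (hB : ∀ B ∈ F, ∑ x ∈ B, ∑ y ∈ B, γ x y ≤
      (B.card : ℝ) ^ 2 * (Real.log (A.card / B.card) + C) + t₀ * B.card
        + 2 * ((B.card : ℝ) / A.card) * ∑ x ∈ B, g x) :
    ∑ B ∈ F, ∑ x ∈ B, ∑ y ∈ B, γ x y ≤
      K * ((A.card : ℝ) ^ 2 * (τ * (Real.log (1 / τ) + C)) + t₀ * A.card
        + 2 * τ * ∑ x ∈ A, g x) := by
  have hn : (0 : ℝ) < A.card := by exact_mod_cast Finset.card_pos.2 hA
  have hlog : 0 ≤ Real.log (1 / τ) := by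
    apply Real.log_nonneg
    rw [le_div_iff₀ hτ0, one_mul]
    refine le_trans hτ ?_
    rw [Real.exp_le_one_iff]; norm_num
  set w : R → ℝ := fun x => A.card * (τ * (Real.log (1 / τ) + C)) + t₀ + 2 * τ * g x with hwdef
  have hw : ∀ x ∈ A, 0 ≤ w x := by
    intro x hx
    have := hg x hx
    simp only [hwdef]
    positivity
  have h1 : ∀ B ∈ F, ∑ x ∈ B, ∑ y ∈ B, γ x y ≤ ∑ x ∈ B, w x := by
    intro B hBF
    obtain ⟨hBA, hBne, hBc⟩ := hF B hBF
    refine le_trans (hB B hBF) ?_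
    have hb : (0 : ℝ) < B.card := by exact_mod_cast Finset.card_pos.2 hBne
    have hg0 : 0 ≤ ∑ x ∈ B, g x := Finset.sum_nonneg fun x hx => hg x (hBA hx)
    have hs : (B.card : ℝ) / A.card ≤ τ := by
      rw [div_le_iff₀ hn]; exact hBc
    have hs0 : (0 : ℝ) < (B.card : ℝ) / A.card := by positivity
    have h2 := mul_log_mono hs0 hs hτ
    have h3 : (B.card : ℝ) ^ 2 * Real.log (A.card / B.card)
        = B.card * A.card * ((B.card : ℝ) / A.card * Real.log (1 / ((B.card : ℝ) / A.card))) := by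
      rw [one_div_div]
      field_simp
    have h4 : (B.card : ℝ) ^ 2 * Real.log (A.card / B.card)
        ≤ B.card * A.card * (τ * Real.log (1 / τ)) := by
      rw [h3]
      exact mul_le_mul_of_nonneg_left h2 (by positivity)
    have h5 : (B.card : ℝ) ^ 2 * C ≤ B.card * A.card * (τ * C) := by
      have : (B.card : ℝ) * C ≤ (τ * A.card) * C := mul_le_mul_of_nonneg_right hBc hC
      nlinarith [mul_le_mul_of_nonneg_left this hb.le]
    have h6 : 2 * ((B.card : ℝ) / A.card) * ∑ x ∈ B, g x ≤ 2 * τ * ∑ x ∈ B, g x := by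
      apply mul_le_mul_of_nonneg_right _ hg0
      linarith
    have h7 : ∑ x ∈ B, w x = B.card * (A.card * (τ * (Real.log (1 / τ) + C)) + t₀)
        + 2 * τ * ∑ x ∈ B, g x := by
      simp only [hwdef]
      rw [Finset.sum_add_distrib, Finset.sum_const, nsmul_eq_mul, Finset.mul_sum]
    rw [h7]
    nlinarith
  have h8 : ∑ x ∈ A, w x = A.card * (A.card * (τ * (Real.log (1 / τ) + C)) + t₀)
      + 2 * τ * ∑ x ∈ A, g x := by
    simp only [hwdef]
    rw [Finset.sum_add_distrib, Finset.sum_const, nsmul_eq_mul, Finset.mul_sum]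
  calc ∑ B ∈ F, ∑ x ∈ B, ∑ y ∈ B, γ x y ≤ ∑ B ∈ F, ∑ x ∈ B, w x := Finset.sum_le_sum h1
    _ ≤ K * ∑ x ∈ A, w x := double_count A F w K hw (fun B hB => (hF B hB).1) hK
    _ = _ := by rw [h8]; ring

variable {R : Type} [CommRing R]

/-- the cell of a point -/
noncomputable def cell (P : Data R) (ρ : P.Ω → ℝ) (v : P.Ω) (x : R) : Fin (P.e v) → ℤ :=
  fun i => ⌊P.em x v i / ρ v⌋

open scoped Classical in
/-- the points in a cell or its neighbours -/
noncomputable def clV (P : Data R) (ρ : P.Ω → ℝ) (A : Finset R) (v : P.Ω)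
    (q : Fin (P.e v) → ℤ) : Finset R :=
  A.filter fun x => ∀ i, |cell P ρ v x i - q i| ≤ 1

open scoped Classical in
noncomputable def FV (P : Data R) (ρ : P.Ω → ℝ) (A : Finset R) (v : P.Ω) : Finset (Finset R) :=
  A.image fun a => clV P ρ A v (cell P ρ v a)

open scoped Classical in
noncomputable def clT (P : Data R) (m : P.T → ℤ) (A : Finset R) (t : P.T) (a : R) : Finset R :=
  A.filter fun x => P.NearT t (m t) x a

open scoped Classical in
noncomputable def FT (P : Data R) (m : P.T → ℤ) (A : Finset R) (t : P.T) : Finset (Finset R) :=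
  A.image fun a => clT P m A t a

lemma self_mem_clV (P : Data R) (ρ : P.Ω → ℝ) (A : Finset R) (v : P.Ω) {a : R} (ha : a ∈ A) :
    a ∈ clV P ρ A v (cell P ρ v a) := by
  classical
  unfold clV
  rw [Finset.mem_filter]
  exact ⟨ha, fun i => by simp⟩

open scoped Classical in
lemma card_FV (P : Data R) {C₁ : ℝ} (hP : P.Geo C₁) (ρ : P.Ω → ℝ) (A : Finset R) (v : P.Ω)
    (x : R) : (((FV P ρ A v).filter fun B => x ∈ B).card : ℝ) ≤ 9 := by
  have h1 : (FV P ρ A v).filter (fun B => x ∈ B) ⊆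
      (Fintype.piFinset fun i => Finset.Icc (cell P ρ v x i - 1) (cell P ρ v x i + 1)).image
        (clV P ρ A v) := by
    intro B hB
    rw [Finset.mem_filter] at hB
    obtain ⟨hB1, hB2⟩ := hB
    unfold FV at hB1
    rw [Finset.mem_image] at hB1
    obtain ⟨a, _, rfl⟩ := hB1
    rw [Finset.mem_image]
    refine ⟨cell P ρ v a, ?_, rfl⟩
    rw [Fintype.mem_piFinset]
    intro i
    unfold clV at hB2
    rw [Finset.mem_filter] at hB2
    have := hB2.2 i
    rw [abs_le] at this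
    rw [Finset.mem_Icc]
    constructor <;> linarith [this.1, this.2]
  have h2 := Finset.card_le_card h1
  have h3 : ((Fintype.piFinset fun i => Finset.Icc (cell P ρ v x i - 1)
      (cell P ρ v x i + 1)).image (clV P ρ A v)).card ≤ 3 ^ (P.e v) := by
    refine le_trans Finset.card_image_le ?_
    rw [Fintype.card_piFinset]
    have h4 : ∀ i : Fin (P.e v), (Finset.Icc (cell P ρ v x i - 1) (cell P ρ v x i + 1)).card = 3 := by
      intro i
      rw [Int.card_Icc]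
      have : cell P ρ v x i + 1 + 1 - (cell P ρ v x i - 1) = 3 := by ring
      rw [this]; rfl
    rw [Finset.prod_congr rfl fun i _ => h4 i, Finset.prod_const, Finset.card_univ,
      Fintype.card_fin]
  have h5 : 3 ^ (P.e v) ≤ 9 := by
    rcases hP.e_eq v with h | h <;> rw [h] <;> norm_num
  exact_mod_cast le_trans h2 (le_trans h3 h5)

open scoped Classical in
lemma card_FT (P : Data R) {C₁ : ℝ} (hP : P.Geo C₁) (m : P.T → ℤ) (A : Finset R) (t : P.T)
    (x : R) : (((FT P m A t).filter fun B => x ∈ B).card : ℝ) ≤ 9 := by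
  have h1 : (FT P m A t).filter (fun B => x ∈ B) ⊆ {clT P m A t x} := by
    intro B hB
    rw [Finset.mem_filter] at hB
    obtain ⟨hB1, hB2⟩ := hB
    unfold FT at hB1
    rw [Finset.mem_image] at hB1
    obtain ⟨a, _, rfl⟩ := hB1
    rw [Finset.mem_singleton]
    unfold clT at hB2 ⊢
    rw [Finset.mem_filter] at hB2
    apply Finset.filter_congr
    intro y _
    constructor
    · intro hy; exact hP.nearT_trans hy (hP.nearT_symm hB2.2)
    · intro hy; exact hP.nearT_trans hy hB2.2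
  have h2 := Finset.card_le_card h1
  rw [Finset.card_singleton] at h2
  have : (((FT P m A t).filter fun B => x ∈ B).card : ℝ) ≤ 1 := by exact_mod_cast h2
  linarith

/-- the cluster of a cell is contained in a ball -/
lemma clV_ball (P : Data R) {C₁ : ℝ} (hP : P.Geo C₁) (ρ : P.Ω → ℝ) (hρ : ∀ v, 0 < ρ v)
    (A : Finset R) (v : P.Ω) (q : Fin (P.e v) → ℤ) :
    ∃ z : E (P.e v), ∀ x ∈ clV P ρ A v q, ‖P.em x v - z‖ ≤ 3 * ρ v := by
  classical
  refine ⟨WithLp.toLp 2 fun i => ρ v * ((q i : ℝ) + 1 / 2), fun x hx => ?_⟩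
  unfold clV at hx
  rw [Finset.mem_filter] at hx
  have hr := hρ v
  have h1 : ∀ i, |(P.em x v - WithLp.toLp 2 fun i => ρ v * ((q i : ℝ) + 1 / 2)) i|
      ≤ 3 / 2 * ρ v := by
    intro i
    have h2 := hx.2 i
    rw [abs_le] at h2
    have h3 : (cell P ρ v x i : ℝ) ≤ P.em x v i / ρ v := Int.floor_le _
    have h4 : P.em x v i / ρ v < (cell P ρ v x i : ℝ) + 1 := Int.lt_floor_add_one _
    have h5 : (-1 : ℝ) ≤ (cell P ρ v x i : ℝ) - q i := by exact_mod_cast h2.1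
    have h6 : (cell P ρ v x i : ℝ) - q i ≤ 1 := by exact_mod_cast h2.2
    rw [le_div_iff₀ hr] at h3
    rw [div_lt_iff₀ hr] at h4
    simp only [PiLp.sub_apply]
    rw [abs_le]
    constructor <;> nlinarith
  rw [EuclideanSpace.norm_eq]
  apply Real.sqrt_le_iff.2
  refine ⟨by positivity, ?_⟩
  calc ∑ i, ‖(P.em x v - WithLp.toLp 2 fun i => ρ v * ((q i : ℝ) + 1 / 2)) i‖ ^ 2
      ≤ ∑ _i : Fin (P.e v), (3 / 2 * ρ v) ^ 2 := by
        apply Finset.sum_le_sum
        intro i _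
        rw [Real.norm_eq_abs]
        exact pow_le_pow_left₀ (abs_nonneg _) (h1 i) 2
    _ = P.e v * (3 / 2 * ρ v) ^ 2 := by
        rw [Finset.sum_const, Finset.card_univ, Fintype.card_fin, nsmul_eq_mul]
    _ ≤ (3 * ρ v) ^ 2 := by
        have h7 : (P.e v : ℝ) ≤ 2 := by
          rcases hP.e_eq v with h | h <;> rw [h] <;> norm_num
        nlinarith [sq_nonneg (ρ v)]

lemma abs_coord_le {k : ℕ} (z : E k) (i : Fin k) : |z i| ≤ ‖z‖ := by
  have := EuclideanSpace.norm_eq z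
  rw [this]
  apply Real.abs_le_sqrt
  have h : z i ^ 2 = ‖z i‖ ^ 2 := by rw [Real.norm_eq_abs, sq_abs]
  rw [h]
  exact Finset.single_le_sum (f := fun i => ‖z i‖ ^ 2) (fun _ _ => by positivity)
    (Finset.mem_univ i)

lemma near_mem_clV (P : Data R) (ρ : P.Ω → ℝ) (hρ : ∀ v, 0 < ρ v)
    (A : Finset R) (v : P.Ω) {x y : R} (hy : y ∈ A) (hxy : ‖P.em (x - y) v‖ ≤ ρ v) :
    y ∈ clV P ρ A v (cell P ρ v x) := by
  classical
  unfold clV
  rw [Finset.mem_filter]
  refine ⟨hy, fun i => ?_⟩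
  have hr := hρ v
  have h1 : |(P.em (x - y) v) i| ≤ ρ v := le_trans (abs_coord_le _ i) hxy
  rw [Data.em_sub, PiLp.sub_apply, abs_le] at h1
  unfold cell
  have h2 : P.em x v i / ρ v - P.em y v i / ρ v ≤ 1 := by
    rw [← sub_div, div_le_one hr]; exact h1.2
  have h3 : P.em y v i / ρ v - P.em x v i / ρ v ≤ 1 := by
    rw [← sub_div, div_le_one hr]; linarith [h1.1]
  have h4 : ⌊P.em x v i / ρ v⌋ ≤ ⌊P.em y v i / ρ v⌋ + 1 := by
    rw [← Int.floor_add_one]; exact Int.floor_le_floor (by linarith)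
  have h5 : ⌊P.em y v i / ρ v⌋ ≤ ⌊P.em x v i / ρ v⌋ + 1 := by
    rw [← Int.floor_add_one]; exact Int.floor_le_floor (by linarith)
  rw [abs_le]
  constructor <;> linarith

/-- the gap of a pair far at all places -/
lemma gap_far (P : Data R) {C₁ : ℝ} (hP : P.Geo C₁) (ρ : P.Ω → ℝ) (hρ : ∀ v, 0 < ρ v)
    (m : P.T → ℤ) {x y : R} (hV : ∀ v, ρ v < ‖P.em (x - y) v‖)
    (hT : ∀ t, ¬ P.NearT t (m t) x y) :
    P.gap ρ m (x - y) ≤ ∑ v, ρ v ^ 2 / ‖P.em (x - y) v‖ ^ 2 := by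
  obtain ⟨v₀⟩ := hP.ne
  have hxy : x - y ≠ 0 := by
    intro h
    have := hV v₀
    rw [h, Data.em_zero, norm_zero] at this
    linarith [hρ v₀]
  rw [Data.gap_of_ne ρ m hxy]
  unfold Data.kap Data.ln
  have h1 : ∑ t, P.lq t * (P.cap t (m t) (x - y) : ℝ) = ∑ t, P.lq t * (P.lev t (x - y) : ℝ) := by
    apply Finset.sum_congr rfl
    intro t _
    have h2 := hT t
    unfold Data.NearT at h2
    push Not at h2
    unfold Data.cap
    rw [if_neg hxy, max_eq_left h2.2.le]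
  rw [h1]
  have h3 : ∀ v ∈ (Finset.univ : Finset P.Ω),
      (P.e v : ℝ) * (Real.log (‖P.em (x - y) v‖ ^ 2 + ρ v ^ 2) / 2)
      ≤ (P.e v : ℝ) * Real.log ‖P.em (x - y) v‖ + ρ v ^ 2 / ‖P.em (x - y) v‖ ^ 2 := by
    intro v _
    have hd : 0 < ‖P.em (x - y) v‖ := lt_trans (hρ v) (hV v)
    set d := ‖P.em (x - y) v‖ with hd'
    have h4 : Real.log (d ^ 2 + ρ v ^ 2) = 2 * Real.log d + Real.log (1 + ρ v ^ 2 / d ^ 2) := by
      have h5 : d ^ 2 + ρ v ^ 2 = d ^ 2 * (1 + ρ v ^ 2 / d ^ 2) := by field_simp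
      rw [h5, Real.log_mul (by positivity) (by positivity), Real.log_pow]
      push_cast; ring
    have h6 : Real.log (1 + ρ v ^ 2 / d ^ 2) ≤ ρ v ^ 2 / d ^ 2 := by
      have := Real.log_le_sub_one_of_pos (show (0 : ℝ) < 1 + ρ v ^ 2 / d ^ 2 by positivity)
      linarith
    have h7 : (P.e v : ℝ) ≤ 2 := by
      rcases hP.e_eq v with h | h <;> rw [h] <;> norm_num
    have h8 : (0 : ℝ) ≤ P.e v := Nat.cast_nonneg _
    have h9 : 0 ≤ ρ v ^ 2 / d ^ 2 := by positivity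
    rw [h4]
    have h10 : (P.e v : ℝ) * Real.log (1 + ρ v ^ 2 / d ^ 2) ≤ 2 * (ρ v ^ 2 / d ^ 2) :=
      le_trans (mul_le_mul_of_nonneg_left h6 h8) (mul_le_mul_of_nonneg_right h7 h9)
    linarith
  have h11 := Finset.sum_le_sum h3
  rw [Finset.sum_add_distrib] at h11
  linarith

end T1_

open T1_ in
theorem stmt_T1 (hT0 : Stmt_T0) (hPDG : Stmt_PDG) (hPDT : Stmt_PDT) (hCOVB : Stmt_COVB)
    (hFARP : Stmt_FARP) : Stmt_T1 := by
  classical
  intro R _ P C₁ hP
  obtain ⟨C₀, hC₀, hT0⟩ := hT0 R P C₁ hP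
  obtain ⟨CF, hCF, hFARP⟩ := hFARP
  have hG : P.Geo C₁ := hP.toGeo
  set p : ℝ := Fintype.card P.Ω + Fintype.card P.T with hp
  have hp0 : 0 ≤ p := by positivity
  set θ₀ : ℝ := min (Real.exp (-1) / 225) (1 / (2 * (18 * 225 * (p + 1)))) with hθ₀
  have hθpos : 0 < θ₀ := by positivity
  refine ⟨θ₀, 2 * (p * 9 * 225 * (1 + C₀) + 9 * p + Fintype.card P.Ω * CF), hθpos, ?_,
    by positivity, ?_⟩
  · refine le_trans (min_le_left _ _) ?_
    have : Real.exp (-1) ≤ 1 := by rw [Real.exp_le_one_iff]; norm_num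
    linarith
  intro A L hO ρ m b hρ hb hbθ hV hT
  have hn : (0 : ℝ) < A.card := by exact_mod_cast Finset.card_pos.2 hO.ne
  set n : ℝ := (A.card : ℝ) with hndef
  set t₀ : ℝ := max 0 (-(P.deg ρ m)) with ht₀
  have ht₀' : 0 ≤ t₀ := le_max_left _ _
  set τ : ℝ := 225 * b with hτ
  have hτ0 : 0 < τ := by positivity
  have hτ1 : τ ≤ Real.exp (-1) := by
    have := le_trans hbθ (min_le_left _ _)
    rw [le_div_iff₀ (by norm_num)] at this
    linarith
  have hb2 : b * (2 * (18 * 225 * (p + 1))) ≤ 1 := by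
    have := le_trans hbθ (min_le_right _ _)
    rwa [le_div_iff₀ (by positivity)] at this
  set g : R → ℝ := fun x => ∑ c ∈ A, P.gap ρ m (x - c) with hg
  have hg0 : ∀ x ∈ A, 0 ≤ g x := fun x _ => Finset.sum_nonneg fun _ _ => hG.gap_nonneg ρ m _
  have hgA : ∑ x ∈ A, g x = P.Gp ρ m A := rfl
  -- the basic inequality
  have hbas : ∀ B : Finset R, B ⊆ A → B.Nonempty →
      ∑ x ∈ B, ∑ y ∈ B, P.gap ρ m (x - y) ≤
      (B.card : ℝ) ^ 2 * (Real.log (A.card / B.card) + C₀) + t₀ * B.card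
        + 2 * ((B.card : ℝ) / A.card) * ∑ x ∈ B, g x := by
    intro B hBA hBne
    have h1 := hT0 A L hO ρ m hρ B hBA hBne
    have h2 : 0 ≤ ∑ v, P.DV ρ A B v := by
      apply Finset.sum_nonneg
      intro v _
      have h3 := hPDG (P.e v) (hG.e_eq v) R A (fun x => P.em x v) (Data.fB A B) (ρ v) (hρ v)
        (Data.fB_sum hBA hO.ne)
      unfold Data.DV
      have h4 : ∑ x ∈ A, ∑ y ∈ A, Data.fB A B x * Data.fB A B y *
          Real.log (‖P.em (x - y) v‖ ^ 2 + ρ v ^ 2) ≤ 0 := by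
        simp only [Data.em_sub]
        exact h3
      have h5 : (0 : ℝ) ≤ (P.e v : ℝ) / 2 := by positivity
      nlinarith
    have h6 : 0 ≤ ∑ t, P.DT m A B t :=
      Finset.sum_nonneg fun t _ => (hPDT R P C₁ hP A B m t hBA hBne).1
    have h7 : P.Gp ρ m B = ∑ x ∈ B, ∑ y ∈ B, P.gap ρ m (x - y) := rfl
    rw [← h7]
    simp only [hg]
    linarith
  -- clusters
  have hFV : ∀ v, ∀ B ∈ FV P ρ A v, B ⊆ A ∧ B.Nonempty ∧ (B.card : ℝ) ≤ τ * A.card := by
    intro v B hB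
    unfold FV at hB
    rw [Finset.mem_image] at hB
    obtain ⟨a, ha, rfl⟩ := hB
    refine ⟨Finset.filter_subset _ _, ⟨a, self_mem_clV P ρ A v ha⟩, ?_⟩
    obtain ⟨z, hz⟩ := clV_ball P hG ρ hρ A v (cell P ρ v a)
    have h1 := hCOVB (P.e v) (hG.e_eq v) R A (fun x => P.em x v) (ρ v) (b * n) 3 (hρ v)
      (by norm_num) (fun z => by have := hV v z; unfold Data.cntV at this; exact this) z
    have h2 : clV P ρ A v (cell P ρ v a) ⊆ A.filter fun x => ‖P.em x v - z‖ ≤ 3 * ρ v := by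
      intro x hx
      rw [Finset.mem_filter]
      refine ⟨?_, hz x hx⟩
      unfold clV at hx
      exact (Finset.mem_filter.1 hx).1
    have h3 : ((clV P ρ A v (cell P ρ v a)).card : ℝ) ≤
        ((A.filter fun x => ‖P.em x v - z‖ ≤ 3 * ρ v).card : ℝ) := by
      exact_mod_cast Finset.card_le_card h2
    refine le_trans h3 (le_trans h1 (le_of_eq ?_))
    rw [hτ]; ring
  have hFT : ∀ t, ∀ B ∈ FT P m A t, B ⊆ A ∧ B.Nonempty ∧ (B.card : ℝ) ≤ τ * A.card := by
    intro t B hB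
    unfold FT at hB
    rw [Finset.mem_image] at hB
    obtain ⟨a, ha, rfl⟩ := hB
    refine ⟨Finset.filter_subset _ _, ⟨a, ?_⟩, ?_⟩
    · unfold clT
      rw [Finset.mem_filter]
      exact ⟨ha, Data.NearT.refl t _ a⟩
    · have h1 := hT t a
      unfold Data.cntT at h1
      refine le_trans h1 ?_
      rw [hτ]
      nlinarith [mul_pos hb hn]
  have hsV : ∀ v, ∑ B ∈ FV P ρ A v, ∑ x ∈ B, ∑ y ∈ B, P.gap ρ m (x - y) ≤
      9 * (n ^ 2 * (τ * (Real.log (1 / τ) + C₀)) + t₀ * n + 2 * τ * P.Gp ρ m A) := by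
    intro v
    have := cluster_sum A (FV P ρ A v) (fun x y => P.gap ρ m (x - y)) g 9 τ C₀ t₀ hO.ne hg0 hC₀
      ht₀' hτ0 hτ1 (hFV v) (fun x _ => card_FV P hG ρ A v x)
      (fun B hB => hbas B (hFV v B hB).1 (hFV v B hB).2.1)
    rw [hgA] at this
    exact this
  have hsT : ∀ t, ∑ B ∈ FT P m A t, ∑ x ∈ B, ∑ y ∈ B, P.gap ρ m (x - y) ≤
      9 * (n ^ 2 * (τ * (Real.log (1 / τ) + C₀)) + t₀ * n + 2 * τ * P.Gp ρ m A) := by
    intro t
    have := cluster_sum A (FT P m A t) (fun x y => P.gap ρ m (x - y)) g 9 τ C₀ t₀ hO.ne hg0 hC₀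
      ht₀' hτ0 hτ1 (hFT t) (fun x _ => card_FT P hG m A t x)
      (fun B hB => hbas B (hFT t B hB).1 (hFT t B hB).2.1)
    rw [hgA] at this
    exact this
  -- far pairs
  set far : P.Ω → R → R → ℝ := fun v x y =>
    if ρ v < ‖P.em y v - P.em x v‖ then ρ v ^ 2 / ‖P.em y v - P.em x v‖ ^ 2 else 0 with hfar
  have hfar0 : ∀ v x y, 0 ≤ far v x y := by
    intro v x y
    simp only [hfar]
    split_ifs
    · positivity
    · exact le_rfl
  have hfars : ∀ v, ∑ x ∈ A, ∑ y ∈ A, far v x y ≤ CF * (b * (Real.log (1 / b) + 1)) * n ^ 2 := by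
    intro v
    have hb1 : b ≤ 1 := by
      have : Real.exp (-1) ≤ 1 := by rw [Real.exp_le_one_iff]; norm_num
      have h2 : 225 * b ≤ 1 := le_trans hτ1 this
      linarith
    have h1 : ∀ x ∈ A, ∑ y ∈ A, far v x y ≤ CF * (b * (Real.log (1 / b) + 1)) * n := by
      intro x _
      have h2 := hFARP (P.e v) (hG.e_eq v) R A (fun x => P.em x v) (ρ v) b (hρ v) hb hb1
        (fun z => by have := hV v z; unfold Data.cntV at this; exact this) (P.em x v)
      simp only [hfar]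
      rw [← Finset.sum_filter]
      exact h2
    calc ∑ x ∈ A, ∑ y ∈ A, far v x y ≤ ∑ _x ∈ A, CF * (b * (Real.log (1 / b) + 1)) * n :=
          Finset.sum_le_sum h1
      _ = _ := by rw [Finset.sum_const, nsmul_eq_mul]; ring
  -- all pairs
  have hpair : ∀ x ∈ A, ∀ y ∈ A, P.gap ρ m (x - y) ≤
      ∑ v, ∑ B ∈ FV P ρ A v, (if x ∈ B ∧ y ∈ B then P.gap ρ m (x - y) else 0)
      + ∑ t, ∑ B ∈ FT P m A t, (if x ∈ B ∧ y ∈ B then P.gap ρ m (x - y) else 0)
      + ∑ v, far v x y := by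
    intro x hx y hy
    have hgap := hG.gap_nonneg ρ m (x - y)
    have hite : ∀ B : Finset R, 0 ≤ (if x ∈ B ∧ y ∈ B then P.gap ρ m (x - y) else 0) := by
      intro B; split_ifs
      · exact hgap
      · exact le_rfl
    have hV0 : ∀ v, 0 ≤ ∑ B ∈ FV P ρ A v, (if x ∈ B ∧ y ∈ B then P.gap ρ m (x - y) else 0) :=
      fun v => Finset.sum_nonneg fun B _ => hite B
    have hT0' : ∀ t, 0 ≤ ∑ B ∈ FT P m A t, (if x ∈ B ∧ y ∈ B then P.gap ρ m (x - y) else 0) :=
      fun t => Finset.sum_nonneg fun B _ => hite B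
    have hVs := Finset.sum_nonneg fun v (_ : v ∈ (Finset.univ : Finset P.Ω)) => hV0 v
    have hTs := Finset.sum_nonneg fun t (_ : t ∈ (Finset.univ : Finset P.T)) => hT0' t
    have hfs := Finset.sum_nonneg fun v (_ : v ∈ (Finset.univ : Finset P.Ω)) => hfar0 v x y
    by_cases h1 : ∃ v, ‖P.em (x - y) v‖ ≤ ρ v
    · obtain ⟨v, hv⟩ := h1
      have h2 : P.gap ρ m (x - y) ≤
          ∑ B ∈ FV P ρ A v, (if x ∈ B ∧ y ∈ B then P.gap ρ m (x - y) else 0) := by
        have hmem : clV P ρ A v (cell P ρ v x) ∈ FV P ρ A v := by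
          unfold FV
          exact Finset.mem_image.2 ⟨x, hx, rfl⟩
        have h3 := Finset.single_le_sum
          (f := fun B : Finset R => if x ∈ B ∧ y ∈ B then P.gap ρ m (x - y) else 0)
          (fun B _ => hite B) hmem
        have h4 : (if x ∈ clV P ρ A v (cell P ρ v x) ∧ y ∈ clV P ρ A v (cell P ρ v x)
            then P.gap ρ m (x - y) else 0) = P.gap ρ m (x - y) :=
          if_pos ⟨self_mem_clV P ρ A v hx, near_mem_clV P ρ hρ A v hy hv⟩
        rw [h4] at h3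
        exact h3
      have h5 := Finset.single_le_sum
        (f := fun v => ∑ B ∈ FV P ρ A v, (if x ∈ B ∧ y ∈ B then P.gap ρ m (x - y) else 0))
        (fun v _ => hV0 v) (Finset.mem_univ v)
      linarith
    by_cases h2 : ∃ t, P.NearT t (m t) x y
    · obtain ⟨t, ht⟩ := h2
      have h2 : P.gap ρ m (x - y) ≤
          ∑ B ∈ FT P m A t, (if x ∈ B ∧ y ∈ B then P.gap ρ m (x - y) else 0) := by
        have hmem : clT P m A t x ∈ FT P m A t := by
          unfold FT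
          exact Finset.mem_image.2 ⟨x, hx, rfl⟩
        have h3 := Finset.single_le_sum
          (f := fun B : Finset R => if x ∈ B ∧ y ∈ B then P.gap ρ m (x - y) else 0)
          (fun B _ => hite B) hmem
        have h4 : (if x ∈ clT P m A t x ∧ y ∈ clT P m A t x
            then P.gap ρ m (x - y) else 0) = P.gap ρ m (x - y) := by
          apply if_pos
          unfold clT
          rw [Finset.mem_filter, Finset.mem_filter]
          exact ⟨⟨hx, Data.NearT.refl t _ x⟩, ⟨hy, hG.nearT_symm ht⟩⟩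
        rw [h4] at h3
        exact h3
      have h5 := Finset.single_le_sum
        (f := fun t => ∑ B ∈ FT P m A t, (if x ∈ B ∧ y ∈ B then P.gap ρ m (x - y) else 0))
        (fun t _ => hT0' t) (Finset.mem_univ t)
      linarith
    · push Not at h1 h2
      have h3 := gap_far P hG ρ hρ m h1 h2
      have h4 : ∑ v, ρ v ^ 2 / ‖P.em (x - y) v‖ ^ 2 = ∑ v, far v x y := by
        apply Finset.sum_congr rfl
        intro v _
        have h5 : ‖P.em (x - y) v‖ = ‖P.em y v - P.em x v‖ := by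
          rw [Data.em_sub, norm_sub_rev]
        simp only [hfar]
        rw [← h5, if_pos (h1 v)]
      rw [h4] at h3
      linarith
  have hsum : P.Gp ρ m A ≤ ∑ v, ∑ B ∈ FV P ρ A v, ∑ x ∈ B, ∑ y ∈ B, P.gap ρ m (x - y)
      + ∑ t, ∑ B ∈ FT P m A t, ∑ x ∈ B, ∑ y ∈ B, P.gap ρ m (x - y)
      + ∑ v, ∑ x ∈ A, ∑ y ∈ A, far v x y := by
    have h1 : P.Gp ρ m A ≤ ∑ x ∈ A, ∑ y ∈ A,
        (∑ v, ∑ B ∈ FV P ρ A v, (if x ∈ B ∧ y ∈ B then P.gap ρ m (x - y) else 0)
        + ∑ t, ∑ B ∈ FT P m A t, (if x ∈ B ∧ y ∈ B then P.gap ρ m (x - y) else 0)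
        + ∑ v, far v x y) :=
      Finset.sum_le_sum fun x hx => Finset.sum_le_sum fun y hy => hpair x hx y hy
    refine le_trans h1 (le_of_eq ?_)
    have h2 : ∀ v, ∑ B ∈ FV P ρ A v, ∑ x ∈ B, ∑ y ∈ B, P.gap ρ m (x - y)
        = ∑ x ∈ A, ∑ y ∈ A, ∑ B ∈ FV P ρ A v,
          if x ∈ B ∧ y ∈ B then P.gap ρ m (x - y) else 0 :=
      fun v => pairs_sum A (FV P ρ A v) (fun x y => P.gap ρ m (x - y))
        (fun B hB => (hFV v B hB).1)
    have h3 : ∀ t, ∑ B ∈ FT P m A t, ∑ x ∈ B, ∑ y ∈ B, P.gap ρ m (x - y)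
        = ∑ x ∈ A, ∑ y ∈ A, ∑ B ∈ FT P m A t,
          if x ∈ B ∧ y ∈ B then P.gap ρ m (x - y) else 0 :=
      fun t => pairs_sum A (FT P m A t) (fun x y => P.gap ρ m (x - y))
        (fun B hB => (hFT t B hB).1)
    have swp : ∀ (κ : Type) (U : Finset κ) (f : κ → R → R → ℝ),
        ∑ v ∈ U, ∑ x ∈ A, ∑ y ∈ A, f v x y = ∑ x ∈ A, ∑ y ∈ A, ∑ v ∈ U, f v x y := by
      intro κ U f
      rw [Finset.sum_comm]
      apply Finset.sum_congr rfl
      intro x _
      rw [Finset.sum_comm]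
    rw [Finset.sum_congr rfl fun v _ => h2 v, Finset.sum_congr rfl fun t _ => h3 t,
      swp P.Ω Finset.univ, swp P.T Finset.univ, swp P.Ω Finset.univ, ← Finset.sum_add_distrib,
      ← Finset.sum_add_distrib]
    apply Finset.sum_congr rfl
    intro x _
    rw [← Finset.sum_add_distrib, ← Finset.sum_add_distrib]
  have hX : ∑ v, ∑ B ∈ FV P ρ A v, ∑ x ∈ B, ∑ y ∈ B, P.gap ρ m (x - y) ≤
      Fintype.card P.Ω *
        (9 * (n ^ 2 * (τ * (Real.log (1 / τ) + C₀)) + t₀ * n + 2 * τ * P.Gp ρ m A)) := by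
    refine le_trans (Finset.sum_le_sum fun v _ => hsV v) (le_of_eq ?_)
    rw [Finset.sum_const, Finset.card_univ, nsmul_eq_mul]
  have hY : ∑ t, ∑ B ∈ FT P m A t, ∑ x ∈ B, ∑ y ∈ B, P.gap ρ m (x - y) ≤
      Fintype.card P.T *
        (9 * (n ^ 2 * (τ * (Real.log (1 / τ) + C₀)) + t₀ * n + 2 * τ * P.Gp ρ m A)) := by
    refine le_trans (Finset.sum_le_sum fun t _ => hsT t) (le_of_eq ?_)
    rw [Finset.sum_const, Finset.card_univ, nsmul_eq_mul]
  have hZ : ∑ v, ∑ x ∈ A, ∑ y ∈ A, far v x y ≤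
      Fintype.card P.Ω * (CF * (b * (Real.log (1 / b) + 1)) * n ^ 2) := by
    refine le_trans (Finset.sum_le_sum fun v _ => hfars v) (le_of_eq ?_)
    rw [Finset.sum_const, Finset.card_univ, nsmul_eq_mul]
  have hGp0 := hG.Gp_nonneg ρ m A
  set G : ℝ := P.Gp ρ m A with hGdef
  set S : ℝ := b * (Real.log (1 / b) + 1) with hSdef
  have hlb : 0 ≤ Real.log (1 / b) := by
    apply Real.log_nonneg
    rw [le_div_iff₀ hb, one_mul]
    have : Real.exp (-1) ≤ 1 := by rw [Real.exp_le_one_iff]; norm_num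
    linarith
  have hlt : Real.log (1 / τ) ≤ Real.log (1 / b) := by
    apply Real.log_le_log (by positivity)
    apply one_div_le_one_div_of_le hb
    linarith
  have hS0 : 0 ≤ S := by positivity
  have h1 : τ * (Real.log (1 / τ) + C₀) ≤ 225 * (1 + C₀) * S := by
    have h2 : Real.log (1 / τ) + C₀ ≤ (1 + C₀) * (Real.log (1 / b) + 1) := by nlinarith
    calc τ * (Real.log (1 / τ) + C₀) ≤ τ * ((1 + C₀) * (Real.log (1 / b) + 1)) :=
          mul_le_mul_of_nonneg_left h2 hτ0.le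
      _ = 225 * (1 + C₀) * S := by rw [hτ, hSdef]; ring
  have h3 : p * (9 * (2 * τ * G)) ≤ 1 / 2 * G := by
    have h4 : p * (9 * (2 * τ)) ≤ 1 / 2 := by
      rw [hτ]
      nlinarith
    nlinarith
  have h5 : p * (9 * (n ^ 2 * (τ * (Real.log (1 / τ) + C₀)))) ≤
      p * (9 * (n ^ 2 * (225 * (1 + C₀) * S))) := by
    apply mul_le_mul_of_nonneg_left _ hp0
    apply mul_le_mul_of_nonneg_left _ (by norm_num)
    exact mul_le_mul_of_nonneg_left h1 (by positivity)
  have h6 : G ≤ p * (9 * (n ^ 2 * (τ * (Real.log (1 / τ) + C₀)) + t₀ * n + 2 * τ * G))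
      + Fintype.card P.Ω * (CF * S * n ^ 2) := by
    have : p * (9 * (n ^ 2 * (τ * (Real.log (1 / τ) + C₀)) + t₀ * n + 2 * τ * G))
      = Fintype.card P.Ω * (9 * (n ^ 2 * (τ * (Real.log (1 / τ) + C₀)) + t₀ * n + 2 * τ * G))
      + Fintype.card P.T * (9 * (n ^ 2 * (τ * (Real.log (1 / τ) + C₀)) + t₀ * n + 2 * τ * G)) := by
      rw [hp]; ring
    rw [this]
    linarith
  have h7 : 1 / 2 * G ≤ p * (9 * (n ^ 2 * (225 * (1 + C₀) * S))) + 9 * p * (t₀ * n)
      + Fintype.card P.Ω * (CF * S * n ^ 2) := by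
    nlinarith
  have h8 : 0 ≤ n ^ 2 * S := by positivity
  have h9 : 0 ≤ t₀ * n := by positivity
  have h10 : 0 ≤ (p * 9 * 225 * (1 + C₀)) * (t₀ * n) := by positivity
  have h11 : 0 ≤ (Fintype.card P.Ω * CF) * (t₀ * n) := by positivity
  have h12 : 0 ≤ (9 * p) * (n ^ 2 * S) := by positivity
  nlinarith

end Pool.NS
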