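import Pool.Agent.Work.MP_b29d7f_ns.Interface3

/-! Block MK1 of MP_b29d7f_ns: counting elements of an ideal in a box. -/

set_option autoImplicit false

open Finset NumberField

namespace Pool.NS

open Pool.Agent.Work.MP_b29d7f_nt.Ded

namespace MK1_

variable {K : Type} [Field K] [NumberField K]

lemma nrm_eq_prod (x : 𝓞 K) : (nrm x : ℝ) = ∏ w : InfinitePlace K, w (x : K) ^ w.mult := by
  rw [InfinitePlace.prod_eq_abs_norm]
  have h1 : nrm x = (Algebra.norm ℤ x).natAbs := by
    rw [← Ideal.absNorm_span_singleton, Ideal.absNorm_apply, Submodule.cardQuot_apply]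
    rfl
  rw [h1]
  have h2 : ((Algebra.norm ℤ x : ℤ) : ℚ) = Algebra.norm ℚ (x : K) := Algebra.coe_norm_int x
  rw [← h2]
  push_cast
  rw [Nat.cast_natAbs]
  push_cast
  rfl

lemma Nm_eq_index (J : Ideal (𝓞 K)) : Nm J = (Submodule.toAddSubgroup J).index := rfl

lemma count_cosets (J : Ideal (𝓞 K)) (α : 𝓞 K) (hα : α ∈ J) (hα0 : α ≠ 0) (m : ℝ) :
    ∃ (ι : Type) (_ : Fintype ι) (c : ι → K), Fintype.card ι * Nm J = nrm α ∧
      ((∀ i, {z : 𝓞 K | ∀ w : InfinitePlace K, w ((z : K) - c i) ≤ m / w (α : K)}.Finite) →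
        (bx J m).Finite ∧ (bx J m).ncard
          = ∑ i, {z : 𝓞 K | ∀ w : InfinitePlace K, w ((z : K) - c i) ≤ m / w (α : K)}.ncard) := by
  classical
  set H : AddSubgroup (𝓞 K) := Submodule.toAddSubgroup (Ideal.span {α}) with hH
  set G : AddSubgroup (𝓞 K) := Submodule.toAddSubgroup J with hG
  have hHG : H ≤ G := by
    intro x hx
    have h1 : x ∈ Ideal.span {α} := hx
    have h2 : Ideal.span {α} ≤ J := by
      rw [Ideal.span_singleton_le_iff_mem]; exact hα
    exact h2 h1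
  have hindex : H.relIndex G * G.index = H.index := AddSubgroup.relIndex_mul_index hHG
  have hHi : H.index = nrm α := rfl
  have hGi : G.index = Nm J := rfl
  have hpos : 0 < nrm α := nrm_pos hα0
  have hrel : H.relIndex G ≠ 0 := by
    intro h0
    rw [h0, zero_mul, hHi] at hindex
    omega
  have hfin : Finite (G ⧸ H.addSubgroupOf G) := by
    apply Nat.finite_of_card_ne_zero
    exact hrel
  letI : Fintype (G ⧸ H.addSubgroupOf G) := Fintype.ofFinite _
  have hαK : (α : K) ≠ 0 := by exact_mod_cast hα0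
  set β : (G ⧸ H.addSubgroupOf G) → 𝓞 K := fun q => ((Quotient.out q : G) : 𝓞 K) with hβ
  have hβJ : ∀ q, β q ∈ J := fun q => (Quotient.out q : G).2
  refine ⟨G ⧸ H.addSubgroupOf G, inferInstance, fun q => -((β q : K) / α), ?_, ?_⟩
  · rw [← Nat.card_eq_fintype_card]
    rw [← hHi, ← hindex, hGi]
    rfl
  · intro hf
    have hmem : ∀ q (z : 𝓞 K), (∀ w : InfinitePlace K, w ((z : K) - -((β q : K) / α)) ≤ m / w (α : K))
        ↔ ∀ w : InfinitePlace K, w (((β q + α * z : 𝓞 K)) : K) ≤ m := by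
      intro q z
      apply forall_congr'
      intro w
      have hwα : 0 < w (α : K) := InfinitePlace.pos_iff.2 hαK
      rw [le_div_iff₀ hwα, ← map_mul]
      have : ((z : K) - -((β q : K) / α)) * α = ((β q + α * z : 𝓞 K) : K) := by
        push_cast
        field_simp
        ring
      rw [this]
    set f : (Σ q : G ⧸ H.addSubgroupOf G,
        {z : 𝓞 K | ∀ w : InfinitePlace K, w ((z : K) - -((β q : K) / α)) ≤ m / w (α : K)}) → bx J m :=
      fun p => ⟨β p.1 + α * p.2.1, by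
        refine ⟨J.add_mem (hβJ _) (J.mul_mem_right _ hα), ?_⟩
        exact (hmem p.1 p.2.1).1 p.2.2⟩ with hfdef
    have hclass : ∀ (q : G ⧸ H.addSubgroupOf G) (x : 𝓞 K) (hx : x ∈ G),
        (x - β q ∈ Ideal.span {α}) ↔ (QuotientAddGroup.mk (⟨x, hx⟩ : G) = q) := by
      intro q x hx
      have h1 : (QuotientAddGroup.mk (Quotient.out q : G) : G ⧸ H.addSubgroupOf G) = q :=
        Quotient.out_eq q
      conv_rhs => rw [← h1]
      rw [eq_comm, QuotientAddGroup.eq, AddSubgroup.mem_addSubgroupOf]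
      have h2 : ((-(Quotient.out q : G) + (⟨x, hx⟩ : G) : G) : 𝓞 K) = x - β q := by
        simp only [hβ, AddSubgroup.coe_add, AddSubgroup.coe_neg]
        ring
      rw [h2]
      rfl
    have hbij : Function.Bijective f := by
      constructor
      · rintro ⟨q, z, hz⟩ ⟨q', z', hz'⟩ h
        simp only [hfdef, Subtype.mk.injEq] at h
        have hxG : β q + α * z ∈ G := J.add_mem (hβJ _) (J.mul_mem_right _ hα)
        have h1 := (hclass q (β q + α * z) hxG).1 (by
          rw [add_sub_cancel_left]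
          exact Ideal.mul_mem_right _ _ (Ideal.mem_span_singleton_self α))
        have h2 := (hclass q' (β q + α * z) hxG).1 (by
          rw [h, add_sub_cancel_left]
          exact Ideal.mul_mem_right _ _ (Ideal.mem_span_singleton_self α))
        have hqq : q = q' := h1.symm.trans h2
        subst hqq
        have h3 : α * z = α * z' := by linear_combination h
        have h4 : z = z' := mul_left_cancel₀ hα0 h3
        subst h4
        rfl
      · rintro ⟨x, hxJ, hxw⟩
        have hxG : x ∈ G := hxJ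
        have h1 := (hclass (QuotientAddGroup.mk (⟨x, hxG⟩ : G)) x hxG).2 rfl
        rw [Ideal.mem_span_singleton] at h1
        obtain ⟨z, hz⟩ := h1
        have hx : x = β (QuotientAddGroup.mk (⟨x, hxG⟩ : G)) + α * z := by
          rw [← hz]; ring
        refine ⟨⟨QuotientAddGroup.mk (⟨x, hxG⟩ : G), z, ?_⟩, ?_⟩
        · apply (hmem _ z).2
          rw [← hx]
          exact hxw
        · apply Subtype.ext
          simp only [hfdef]
          exact hx.symm
    have hfinS : ∀ q : G ⧸ H.addSubgroupOf G, Finite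
        {z : 𝓞 K | ∀ w : InfinitePlace K, w ((z : K) - -((β q : K) / α)) ≤ m / w (α : K)} :=
      fun q => (hf q).to_subtype
    have hfinSig : Finite (Σ q : G ⧸ H.addSubgroupOf G,
        {z : 𝓞 K | ∀ w : InfinitePlace K, w ((z : K) - -((β q : K) / α)) ≤ m / w (α : K)}) :=
      inferInstance
    constructor
    · have : Finite (bx J m) := Finite.of_surjective f hbij.2
      exact Set.toFinite _
    · rw [← Nat.card_coe_set_eq, ← Nat.card_congr (Equiv.ofBijective f hbij), Nat.card_sigma]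
      apply Finset.sum_congr rfl
      intro q _
      rw [Nat.card_coe_set_eq]

lemma root_pow {d : ℕ} (hd : 1 ≤ d) {N : ℝ} (hN : 0 ≤ N) : (N ^ (1 / (d : ℝ))) ^ d = N := by
  rw [one_div]
  exact Real.rpow_inv_natCast_pow hN (by omega)

/-- a short element of an ideal -/
lemma short (hMK0 : Stmt_MK0) : ∃ C' : ℝ, 1 ≤ C' ∧ ∀ J : Ideal (𝓞 K), J ≠ ⊥ →
    ∃ α ∈ J, α ≠ 0 ∧ ∀ w : InfinitePlace K,
      w (α : K) ≤ C' * (Nm J : ℝ) ^ (1 / (Module.finrank ℚ K : ℝ)) := by
  classical
  obtain ⟨V, C, hV, hC, h⟩ := hMK0 K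
  set d := Module.finrank ℚ K with hd
  have hd1 : 1 ≤ d := Module.finrank_pos
  set D : ℝ := max 1 (max (2 * C / V) (4 / V)) with hD
  have hD1 : 1 ≤ D := le_max_left _ _
  have hD2 : 2 * C / V ≤ D := le_trans (le_max_left _ _) (le_max_right _ _)
  have hD3 : 4 / V ≤ D := le_trans (le_max_right _ _) (le_max_right _ _)
  refine ⟨2 * D, by linarith, ?_⟩
  intro J hJ
  have hN : 0 < Nm J := Nm_pos hJ
  have hN1 : (1 : ℝ) ≤ Nm J := by exact_mod_cast hN
  set t : ℝ := (Nm J : ℝ) ^ (1 / (d : ℝ)) with ht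
  have ht1 : 1 ≤ t := Real.one_le_rpow hN1 (by positivity)
  have htd : t ^ d = Nm J := root_pow hd1 (by positivity)
  set ρ : ℝ := D * t with hρ
  have hρ1 : 1 ≤ ρ := by
    rw [hρ]; nlinarith
  obtain ⟨hf, hc⟩ := h ρ (fun _ => ρ) 0 hρ1 (fun _ => le_rfl)
  set S : Set (𝓞 K) := {x : 𝓞 K | ∀ w : InfinitePlace K, w ((x : K) - 0) ≤ ρ} with hS
  have hprod : ∏ w : InfinitePlace K, ρ ^ w.mult = ρ ^ d := by
    rw [Finset.prod_pow_eq_pow_sum, InfinitePlace.sum_mult_eq]
  rw [hprod] at hc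
  have h1 : V * ρ ^ d - C * ρ ^ d / ρ ≤ (S.ncard : ℝ) := by
    have := (abs_le.1 hc).1
    linarith
  have h2 : C / ρ ≤ V / 2 := by
    rw [div_le_div_iff₀ (by linarith) (by norm_num)]
    have h3 : 2 * C / V ≤ ρ := by
      rw [hρ]
      have : D ≤ D * t := by nlinarith
      linarith
    rw [div_le_iff₀ hV] at h3
    nlinarith
  have h4 : V / 2 * ρ ^ d ≤ (S.ncard : ℝ) := by
    have h5 : C * ρ ^ d / ρ = C / ρ * ρ ^ d := by ring
    have h6 : C / ρ * ρ ^ d ≤ V / 2 * ρ ^ d := mul_le_mul_of_nonneg_right h2 (by positivity)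
    rw [h5] at h1
    nlinarith
  have h7 : 4 / V * (Nm J : ℝ) ≤ ρ ^ d := by
    rw [hρ, mul_pow, htd]
    apply mul_le_mul_of_nonneg_right _ (by positivity)
    refine le_trans hD3 ?_
    calc D = D ^ 1 := (pow_one D).symm
      _ ≤ D ^ d := pow_le_pow_right₀ hD1 hd1
  have h8 : (Nm J : ℝ) < (S.ncard : ℝ) := by
    have h9 : V / 2 * (4 / V * (Nm J : ℝ)) = 2 * Nm J := by field_simp; ring
    have h10 : V / 2 * (4 / V * (Nm J : ℝ)) ≤ V / 2 * ρ ^ d :=
      mul_le_mul_of_nonneg_left h7 (by positivity)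
    nlinarith
  have h11 : Nm J < S.ncard := by exact_mod_cast h8
  have : Finite (𝓞 K ⧸ J) := Ring.HasFiniteQuotients.finiteQuotient hJ
  letI : Fintype (𝓞 K ⧸ J) := Fintype.ofFinite _
  have h12 : (Finset.univ : Finset (𝓞 K ⧸ J)).card < hf.toFinset.card := by
    rw [Finset.card_univ, ← Nat.card_eq_fintype_card]
    rw [Set.ncard_eq_toFinset_card S hf] at h11
    exact h11
  obtain ⟨x, hx, y, hy, hxy, hq⟩ := Finset.exists_ne_map_eq_of_card_lt_of_maps_to h12
    (f := fun x => Ideal.Quotient.mk J x) (fun _ _ => Finset.mem_coe.2 (Finset.mem_univ _))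
  refine ⟨x - y, Ideal.Quotient.eq.1 hq, sub_ne_zero.2 hxy, fun w => ?_⟩
  rw [Set.Finite.mem_toFinset] at hx hy
  have hx' := hx w
  have hy' := hy w
  rw [sub_zero] at hx' hy'
  push_cast
  calc w ((x : K) - y) ≤ w (x : K) + w (y : K) := by
        have := w.1.add_le (x : K) (-(y : K))
        rw [← sub_eq_add_neg] at this
        have h13 : w.1 (-(y : K)) = w.1 (y : K) := w.1.map_neg _
        rw [h13] at this
        exact this
    _ ≤ 2 * D * t := by
        rw [hρ] at hx' hy'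
        linarith

end MK1_

open MK1_ in
theorem stmt_MK1 (hMK0 : Stmt_MK0) : Stmt_MK1 := by
  classical
  intro K _ _
  obtain ⟨C', hC', hshort⟩ := short (K := K) hMK0
  obtain ⟨V, C, hV, hC, hMK⟩ := hMK0 K
  set d := Module.finrank ℚ K with hd
  have hd1 : 1 ≤ d := Module.finrank_pos
  have hdR : (0 : ℝ) < d := by exact_mod_cast hd1
  -- the main case
  have main : ∀ J : Ideal (𝓞 K), J ≠ ⊥ → ∀ m : ℝ,
      C' * (Nm J : ℝ) ^ (1 / (d : ℝ)) ≤ m → (bx J m).Finite ∧
      |((bx J m).ncard : ℝ) - V * (m ^ d / Nm J)| ≤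
        C * C' * (m ^ d / Nm J) ^ (1 - 1 / (d : ℝ)) := by
    intro J hJ m hm
    have hN : 0 < Nm J := Nm_pos hJ
    have hN1 : (1 : ℝ) ≤ Nm J := by exact_mod_cast hN
    have hN0 : (0 : ℝ) < Nm J := by linarith
    set t : ℝ := (Nm J : ℝ) ^ (1 / (d : ℝ)) with ht
    have ht1 : 1 ≤ t := Real.one_le_rpow hN1 (by positivity)
    have htd : t ^ d = Nm J := root_pow hd1 (by positivity)
    have hm0 : 0 < m := by nlinarith
    obtain ⟨α, hα, hα0, hw⟩ := hshort J hJ
    have hαK : (α : K) ≠ 0 := by exact_mod_cast hα0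
    have hwα : ∀ w : InfinitePlace K, 0 < w (α : K) := fun w => InfinitePlace.pos_iff.2 hαK
    obtain ⟨ι, _, c, hcard, hcount⟩ := count_cosets J α hα hα0 m
    have hr : 1 ≤ m / (C' * t) := by
      rw [le_div_iff₀ (by positivity), one_mul]; exact hm
    have hρ : ∀ w : InfinitePlace K, m / (C' * t) ≤ m / w (α : K) := by
      intro w
      exact div_le_div_of_nonneg_left hm0.le (hwα w) (hw w)
    have hM := fun i => hMK (m / (C' * t)) (fun w => m / w (α : K)) (c i) hr hρ
    obtain ⟨hfin, hncard⟩ := hcount fun i => (hM i).1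
    refine ⟨hfin, ?_⟩
    have hnrm : (nrm α : ℝ) = ∏ w : InfinitePlace K, w (α : K) ^ w.mult := nrm_eq_prod α
    have hnrm0 : (0 : ℝ) < nrm α := by exact_mod_cast nrm_pos hα0
    have hprod : ∏ w : InfinitePlace K, (m / w (α : K)) ^ w.mult = m ^ d / nrm α := by
      rw [hnrm]
      simp only [div_pow]
      rw [Finset.prod_div_distrib, Finset.prod_pow_eq_pow_sum, InfinitePlace.sum_mult_eq]
    have hcardR : (Fintype.card ι : ℝ) * Nm J = nrm α := by exact_mod_cast hcard
    have hmain : (Fintype.card ι : ℝ) * (m ^ d / nrm α) = m ^ d / Nm J := by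
      rw [← hcardR]
      have hι : (Fintype.card ι : ℝ) ≠ 0 := by
        intro h0
        rw [h0, zero_mul] at hcardR
        linarith
      field_simp
    have h1 : ((bx J m).ncard : ℝ) - V * (m ^ d / Nm J)
        = ∑ i, (({z : 𝓞 K | ∀ w : InfinitePlace K, w ((z : K) - c i) ≤ m / w (α : K)}.ncard : ℝ)
          - V * (m ^ d / nrm α)) := by
      rw [hncard, Finset.sum_sub_distrib, Finset.sum_const, Finset.card_univ, nsmul_eq_mul]
      push_cast
      rw [← hmain]
      ring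
    have h2 : |((bx J m).ncard : ℝ) - V * (m ^ d / Nm J)| ≤
        ∑ _i : ι, C * (m ^ d / nrm α) / (m / (C' * t)) := by
      rw [h1]
      refine le_trans (Finset.abs_sum_le_sum_abs _ _) (Finset.sum_le_sum fun i _ => ?_)
      have := (hM i).2
      rw [hprod] at this
      exact this
    refine le_trans h2 (le_of_eq ?_)
    rw [Finset.sum_const, Finset.card_univ, nsmul_eq_mul]
    have h3 : (Fintype.card ι : ℝ) * (C * (m ^ d / nrm α) / (m / (C' * t)))
        = C * C' * ((m ^ d / Nm J) * (t / m)) := by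
      rw [← hmain]
      field_simp
    rw [h3]
    congr 1
    have hy : m ^ d / Nm J = (m / t) ^ d := by rw [div_pow, htd]
    have hy0 : 0 < m / t := by positivity
    rw [hy, ← Real.rpow_natCast (m / t) d, ← Real.rpow_mul hy0.le]
    have h4 : (d : ℝ) * (1 - 1 / (d : ℝ)) = d - 1 := by field_simp
    rw [h4, Real.rpow_sub_one hy0.ne']
    field_simp
  refine ⟨V, C * C' + (V * C' ^ d + C * C' * C' ^ d), hV, by positivity, ?_⟩
  intro J hJ m hm
  have hN : 0 < Nm J := Nm_pos hJ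
  have hN1 : (1 : ℝ) ≤ Nm J := by exact_mod_cast hN
  have hN0 : (0 : ℝ) < Nm J := by linarith
  set t : ℝ := (Nm J : ℝ) ^ (1 / (d : ℝ)) with ht
  have ht1 : 1 ≤ t := Real.one_le_rpow hN1 (by positivity)
  have htd : t ^ d = Nm J := root_pow hd1 (by positivity)
  have hC'0 : 0 < C' := by linarith
  set Y : ℝ := (m ^ d / Nm J) ^ (1 - 1 / (d : ℝ)) with hY
  have hY0 : 0 ≤ Y := Real.rpow_nonneg (by positivity) _
  by_cases hmt : C' * t ≤ m
  · obtain ⟨h1, h2⟩ := main J hJ m hmt
    refine ⟨h1, le_trans h2 ?_⟩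
    have : 0 ≤ C * C' := by positivity
    have h3 : 0 ≤ (V * C' ^ d + C * C' * C' ^ d) * (1 + Y) := by positivity
    nlinarith
  · push Not at hmt
    obtain ⟨h1, h2⟩ := main J hJ (C' * t) le_rfl
    have hsub : bx J m ⊆ bx J (C' * t) := by
      rintro x ⟨hx1, hx2⟩
      exact ⟨hx1, fun w => le_trans (hx2 w) hmt.le⟩
    refine ⟨h1.subset hsub, ?_⟩
    have h3 : ((bx J m).ncard : ℝ) ≤ ((bx J (C' * t)).ncard : ℝ) := by
      exact_mod_cast Set.ncard_le_ncard hsub h1
    have h4 : (C' * t) ^ d / Nm J = C' ^ d := by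
      rw [mul_pow, htd]; field_simp
    rw [h4] at h2
    have h5 : (C' ^ d : ℝ) ^ (1 - 1 / (d : ℝ)) ≤ C' ^ d := by
      have h6 : (1 : ℝ) ≤ C' ^ d := one_le_pow₀ hC'
      calc (C' ^ d : ℝ) ^ (1 - 1 / (d : ℝ)) ≤ (C' ^ d : ℝ) ^ (1 : ℝ) := by
            apply Real.rpow_le_rpow_of_exponent_le h6
            have : (0 : ℝ) < 1 / (d : ℝ) := by positivity
            linarith
        _ = C' ^ d := Real.rpow_one _
    have h7 : ((bx J m).ncard : ℝ) ≤ V * C' ^ d + C * C' * C' ^ d := by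
      have h8 := (abs_le.1 h2).2
      have h9 : C * C' * (C' ^ d : ℝ) ^ (1 - 1 / (d : ℝ)) ≤ C * C' * C' ^ d :=
        mul_le_mul_of_nonneg_left h5 (by positivity)
      linarith
    have h10 : V * (m ^ d / Nm J) ≤ V * C' ^ d := by
      apply mul_le_mul_of_nonneg_left _ hV.le
      rw [← h4]
      apply div_le_div_of_nonneg_right _ hN0.le
      exact pow_le_pow_left₀ hm.le hmt.le d
    have h11 : 0 ≤ V * (m ^ d / Nm J) := by positivity
    have h12 : (0 : ℝ) ≤ ((bx J m).ncard : ℝ) := Nat.cast_nonneg _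
    have h13 : 0 ≤ C * C' * C' ^ d := by positivity
    have h14 : |((bx J m).ncard : ℝ) - V * (m ^ d / Nm J)| ≤ V * C' ^ d + C * C' * C' ^ d := by
      rw [abs_le]; constructor <;> linarith
    refine le_trans h14 ?_
    have h15 : 0 ≤ C * C' := by positivity
    have h16 : 0 ≤ V * C' ^ d + C * C' * C' ^ d := by positivity
    nlinarith [mul_nonneg h15 hY0, mul_nonneg h16 hY0]

end Pool.NS
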